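import Pool.Agent.MQG.StmtsU

set_option autoImplicit false

namespace Pool.Agent.MQG.H90

open Pool.Agent.MQG

theorem dsa : DsaStmt := by
  intro P Y X e S S' T T' hS hS'
  refine ⟨fun p ζ => ?_, fun p ζ => ?_, fun c p ζ => ?_, fun p ζ => rfl, fun p ζ => ?_,
    fun h => ?_⟩
  · show prt e p (S (S' ζ)) = T p (T' p (prt e p ζ))
    rw [hS, hS']
  · show prt e p (S ζ + S' ζ) = T p (prt e p ζ) + T' p (prt e p ζ)
    rw [map_add, hS, hS']
  · show prt e p (c • S ζ) = c • T p (prt e p ζ)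
    rw [map_smul, hS]
  · show prt e p (0 : L2 Y) = 0
    exact map_zero _
  · ext ζ y
    obtain ⟨⟨p, x⟩, rfl⟩ := e.symm.surjective y
    have h1 : prt e p (S ζ) x = prt e p (S' ζ) x := by rw [hS, hS', h]
    simpa only [prt_apply] using h1

end Pool.Agent.MQG.H90
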